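import Pool.Agent.H96Dep.Main

/-!
# The gap between lower and upper thresholds is not bounded by a function of `d`

The definitions (`PotEdge`, `present`, `IsDependencyGraph`, `IsDepRandomGraph`,
`IsMonotoneProperty`, `ASHas`, `ASLacks`, `Admissible`, `IsThresholdPair`) are in
`Pool/Agent/H96Dep/Defs.lean`.

The property used is: two edges share a vertex, or there are at least `√n` edges.  It has the
threshold pair `L(n,0) = √n / n²`, `L(n,d) = 1 / n²` for `d ≥ 1`, `U(n,d) = max(√n, d+1) / n²`.
-/

namespace Pool.Agent.Results.MP_cca6ac_pr.GapNotFunctionOfD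

open MeasureTheory Filter Asymptotics Pool.Agent.H96Dep

/-- There is a monotone graph property with a threshold pair `(L, U)` such that `U / L = O(f(d))`
fails for every function `f` of `d` alone. -/
theorem result : ∃ P : ∀ n : ℕ, SimpleGraph (Fin n) → Prop, IsMonotoneProperty P ∧
    ∃ L U : ℕ → ℕ → ℝ, IsThresholdPair P L U ∧
      ∀ f : ℕ → ℝ, ∃ d : ℕ → ℕ, Admissible d ∧
        ¬ (fun n => U n (d n) / L n (d n)) =O[atTop] (fun n => f (d n)) := by
  refine ⟨PP, PP_monotone, LL, UU, threshold_PP, fun f => ?_⟩
  by_contra hcon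
  push Not at hcon
  exact ratio_unbounded f hcon

end Pool.Agent.Results.MP_cca6ac_pr.GapNotFunctionOfD
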